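import Pool.Agent.D0H90.SM.Stm2
import Pool.Agent.D0H81.SM.Base

set_option autoImplicit false

/-!
# Project SM: dual numbers, the tuples `ξ_B`, the matrix of the transversality condition
-/

namespace Pool.Agent.D0H50.SM

open Pool.Agent.D0H90.SM Pool.Agent.D0H81.SM Matrix

universe u v

section dual

variable {n d : ℕ} {R : Type u} [CommRing R]

theorem split_dual (z : Fin n → DualNumber R) :
    z = (fun l => (TrivSqZeroExt.inlHom R R) (z l).fst) +
      (fun l => DualNumber.eps * (TrivSqZeroExt.inlHom R R) (z l).snd) := by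
  funext l
  apply TrivSqZeroExt.ext <;> simp

theorem mon_snd (m : Ex n d) (z : Fin n → DualNumber R) :
    (mon m z).snd = dmon m (fun l => (z l).fst) (fun l => (z l).snd) := by
  conv_lhs => rw [split_dual z]
  rw [mon_nil, dmon_smul, mon_map, dmon_map]
  · simp
  · intro s t
    have : (DualNumber.eps : DualNumber R) * DualNumber.eps = 0 := DualNumber.eps_mul_eps
    linear_combination (TrivSqZeroExt.inlHom R R) (z s).snd *
      (TrivSqZeroExt.inlHom R R) (z t).snd * this

theorem mon_fst (m : Ex n d) (z : Fin n → DualNumber R) :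
    (mon m z).fst = mon m (fun l => (z l).fst) :=
  (mon_map (TrivSqZeroExt.fstHom R R R).toRingHom m z).symm

theorem ev_fst (w : Cf n d → DualNumber R) (z : Fin n → DualNumber R) (i : Fin n) :
    (ev w z i).fst = ev (fun a => (w a).fst) (fun l => (z l).fst) i := by
  have := congrFun (ev_map (TrivSqZeroExt.fstHom R R R).toRingHom w z) i
  exact this.symm

theorem ev_snd (w : Cf n d → DualNumber R) (z : Fin n → DualNumber R) (i : Fin n) :
    (ev w z i).snd = ev (fun a => (w a).snd) (fun l => (z l).fst) i +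
      dev (fun a => (w a).fst) (fun l => (z l).fst) (fun l => (z l).snd) i := by
  unfold ev dev
  rw [TrivSqZeroExt.snd_sum, ← Finset.sum_add_distrib]
  refine Finset.sum_congr rfl fun m _ => ?_
  rw [DualNumber.snd_mul, mon_snd, mon_fst]
  ring

theorem mulVec_fst (M : Matrix (Fin n) (Fin n) (DualNumber R)) (z : Fin n → DualNumber R)
    (i : Fin n) : ((M *ᵥ z) i).fst = ((M.map TrivSqZeroExt.fst) *ᵥ fun l => (z l).fst) i := by
  simp only [mulVec, dotProduct, TrivSqZeroExt.fst_sum, TrivSqZeroExt.fst_mul, Matrix.map_apply]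

theorem mulVec_snd (M : Matrix (Fin n) (Fin n) (DualNumber R)) (z : Fin n → DualNumber R)
    (i : Fin n) : ((M *ᵥ z) i).snd = ((M.map TrivSqZeroExt.fst) *ᵥ fun l => (z l).snd) i +
      ((M.map TrivSqZeroExt.snd) *ᵥ fun l => (z l).fst) i := by
  simp only [mulVec, dotProduct, TrivSqZeroExt.snd_sum, DualNumber.snd_mul, Matrix.map_apply,
    Finset.sum_add_distrib]

theorem dmon_zero (m : Ex n d) (x : Fin n → R) : dmon m x 0 = 0 := by
  unfold dmon
  simp

theorem dev_zero (c : Cf n d → R) (x : Fin n → R) : dev c x 0 = 0 := by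
  funext i
  simp [dev, dmon_zero]

theorem dev_add (c : Cf n d → R) (x y z : Fin n → R) :
    dev c x (y + z) = dev c x y + dev c x z := by
  have h1 : ∀ m : Ex n d, dmon m x (y + z) = dmon m x y + dmon m x z := by
    intro m
    unfold dmon
    rw [← Finset.sum_add_distrib]
    refine Finset.sum_congr rfl fun l _ => ?_
    rw [Pi.add_apply]
    ring
  funext i
  simp only [dev, h1, Pi.add_apply, mul_add, Finset.sum_add_distrib]

theorem dev_smul' (c : Cf n d → R) (x y : Fin n → R) (r : R) :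
    dev c x (r • y) = r • dev c x y := dev_smul c x y r

theorem dev_neg (c : Cf n d → R) (x y : Fin n → R) : dev c x (-y) = - dev c x y := by
  have := dev_smul' c x y (-1)
  rwa [neg_one_smul, neg_one_smul] at this

theorem dev_sub (c : Cf n d → R) (x y z : Fin n → R) :
    dev c x (y - z) = dev c x y - dev c x z := by
  rw [sub_eq_add_neg, dev_add, dev_neg, ← sub_eq_add_neg]

theorem ev_add_cf (c c' : Cf n d → R) (x : Fin n → R) : ev (c + c') x = ev c x + ev c' x := by
  funext i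
  simp only [ev, Pi.add_apply, add_mul, Finset.sum_add_distrib]

theorem ev_smul_cf (c : Cf n d → R) (r : R) (x : Fin n → R) : ev (r • c) x = r • ev c x := by
  funext i
  simp only [ev, Pi.smul_apply, smul_eq_mul, mul_assoc, Finset.mul_sum]

theorem ev_zero_cf (x : Fin n → R) : ev (0 : Cf n d → R) x = 0 := by
  funext i
  simp [ev]

/-- The matrix `1 + ε B`. -/
def onePlus (B : Matrix (Fin n) (Fin n) R) : Matrix (Fin n) (Fin n) (DualNumber R) :=
  Matrix.of fun i j => TrivSqZeroExt.inl ((1 : Matrix (Fin n) (Fin n) R) i j) +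
    TrivSqZeroExt.inr (B i j)

theorem onePlus_fst (B : Matrix (Fin n) (Fin n) R) : (onePlus B).map TrivSqZeroExt.fst = 1 := by
  ext i j
  simp [onePlus]

theorem onePlus_snd (B : Matrix (Fin n) (Fin n) R) : (onePlus B).map TrivSqZeroExt.snd = B := by
  ext i j
  simp [onePlus]

/-- The tuple `ξ_B` (coefficients). -/
noncomputable def xi (y : Cf n d → R) (B : Matrix (Fin n) (Fin n) R) : Cf n d → R :=
  fun a => (conj (onePlus B) (onePlus (-B)) (fun a => (TrivSqZeroExt.inl (y a) : DualNumber R)) a).snd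

theorem xi_ev (y : Cf n d → R) (B : Matrix (Fin n) (Fin n) R) (x : Fin n → R) :
    ev (xi y B) x = dev y x (B *ᵥ x) - B *ᵥ ev y x := by
  funext i
  have h1 := congrFun (ev_conj (fun a => (TrivSqZeroExt.inl (y a) : DualNumber R)) (onePlus B)
    (onePlus (-B)) (fun l => (TrivSqZeroExt.inl (x l) : DualNumber R))) i
  have h2 := congrArg TrivSqZeroExt.snd h1
  rw [ev_snd, mulVec_snd, onePlus_fst, onePlus_snd] at h2
  simp only [TrivSqZeroExt.fst_inl, TrivSqZeroExt.snd_inl] at h2
  have h3 : (fun l => (ev (fun a => (TrivSqZeroExt.inl (y a) : DualNumber R))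
      (onePlus B *ᵥ fun l => TrivSqZeroExt.inl (x l)) l).fst) = ev y x := by
    funext l
    rw [ev_fst]
    simp only [mulVec_fst, onePlus_fst, TrivSqZeroExt.fst_inl, Matrix.one_mulVec]
  have h4 : (fun l => (ev (fun a => (TrivSqZeroExt.inl (y a) : DualNumber R))
      (onePlus B *ᵥ fun l => TrivSqZeroExt.inl (x l)) l).snd) = dev y x (B *ᵥ x) := by
    funext l
    rw [ev_snd]
    simp only [mulVec_fst, mulVec_snd, onePlus_fst, onePlus_snd, TrivSqZeroExt.fst_inl,
      TrivSqZeroExt.snd_inl, Matrix.one_mulVec]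
    have e1 : (fun _ : Cf n d => (0 : R)) = 0 := rfl
    rw [e1, ev_zero_cf]
    simp only [Pi.zero_apply, zero_add]
  rw [h3, h4, Matrix.one_mulVec] at h2
  have e2 : (fun _ : Fin n => (0 : R)) = 0 := rfl
  rw [e2, dev_zero, Pi.zero_apply, add_zero] at h2
  have e3 : xi y B = fun a => (conj (onePlus B) (onePlus (-B))
    (fun a => (TrivSqZeroExt.inl (y a) : DualNumber R)) a).snd := rfl
  rw [e3, h2, Matrix.neg_mulVec, Pi.sub_apply, Pi.neg_apply, sub_eq_add_neg]

end dual

section fld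

variable {n d : ℕ} {K : Type u} [Field K] [Infinite K]

theorem conj_of_fixes {A A' : Matrix (Fin n) (Fin n) K} {y : Cf n d → K} (hA : A * A' = 1)
    (h : Fixes A y) : conj A A' y = y := by
  apply ev_ext
  intro x
  rw [ev_conj, h, Matrix.mulVec_mulVec, mul_eq_one_comm.1 hA, Matrix.one_mulVec]

theorem chain_fix {A A' : Matrix (Fin n) (Fin n) K} {y : Cf n d → K} (hA : A * A' = 1)
    (h : Fixes A y) (x z : Fin n → K) : dev y (A *ᵥ x) (A *ᵥ z) = A *ᵥ dev y x z := by
  have h1 := chain y A A' x z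
  rw [conj_of_fixes hA h] at h1
  rw [h1, Matrix.mulVec_mulVec, hA, Matrix.one_mulVec]

/-- The condition of CODIM as a submodule. -/
noncomputable def WW (y : Cf n d → K) (A : Matrix (Fin n) (Fin n) K) :
    Submodule K (Cf n d → K) where
  carrier := {v | ∃ B : Matrix (Fin n) (Fin n) K, ∀ x : Fin n → K,
          ev v (A *ᵥ x) - A *ᵥ ev v x = A *ᵥ (dev y x (B *ᵥ x) - B *ᵥ ev y x)}
  add_mem' := by
    rintro v w ⟨B, hB⟩ ⟨B', hB'⟩
    refine ⟨B + B', fun x => ?_⟩
    rw [ev_add_cf, ev_add_cf, Matrix.add_mulVec, Matrix.add_mulVec, dev_add,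
      Matrix.mulVec_add, add_sub_add_comm, hB, hB', ← Matrix.mulVec_add, add_sub_add_comm]
  zero_mem' := ⟨0, fun x => by
    rw [ev_zero_cf, ev_zero_cf, Matrix.zero_mulVec, Matrix.zero_mulVec, dev_zero]
    simp⟩
  smul_mem' := by
    rintro r v ⟨B, hB⟩
    refine ⟨r • B, fun x => ?_⟩
    rw [ev_smul_cf, ev_smul_cf, Matrix.mulVec_smul, ← smul_sub, hB, Matrix.smul_mulVec,
      Matrix.smul_mulVec, dev_smul', ← smul_sub, Matrix.mulVec_smul]

theorem xi_mem {A A' : Matrix (Fin n) (Fin n) K} {y : Cf n d → K} (hA : A * A' = 1)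
    (h : Fixes A y) (B : Matrix (Fin n) (Fin n) K) : xi y B ∈ WW y A := by
  refine ⟨A' * B * A - B, fun x => ?_⟩
  rw [xi_ev, xi_ev, h x]
  have e1 : B *ᵥ (A *ᵥ x) = A *ᵥ ((A' * B * A) *ᵥ x) := by
    rw [Matrix.mulVec_mulVec, Matrix.mulVec_mulVec]
    congr 1
    rw [← mul_assoc, ← mul_assoc, hA, one_mul]
  have e2 : B *ᵥ (A *ᵥ ev y x) = A *ᵥ ((A' * B * A) *ᵥ ev y x) := by
    rw [Matrix.mulVec_mulVec, Matrix.mulVec_mulVec]
    congr 1
    rw [← mul_assoc, ← mul_assoc, hA, one_mul]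
  rw [e1, e2, chain_fix hA h, Matrix.sub_mulVec, Matrix.sub_mulVec, dev_sub]
  simp only [Matrix.mulVec_sub]
  abel

/-- A derivation of the field, applied to the coefficients of `y`. -/
theorem deriv_mem {A A' : Matrix (Fin n) (Fin n) K} {y : Cf n d → K} (hA : A * A' = 1)
    (h : Fixes A y) (Ψ : K →+* DualNumber K) (hΨ : ∀ t, (Ψ t).fst = t) :
    (fun a => (Ψ (y a)).snd) ∈ WW y A := by
  have hc : conj (A.map Ψ) (A'.map Ψ) (fun a => Ψ (y a)) = fun a => Ψ (y a) := by
    rw [conj_map, conj_of_fixes hA h]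
  have hAA : A.map Ψ * A'.map Ψ = 1 := by
    rw [← Matrix.map_mul, hA]
    exact Matrix.map_one Ψ (map_zero Ψ) (map_one Ψ)
  have hf1 : (A.map Ψ).map TrivSqZeroExt.fst = A := by
    ext i j
    simp [hΨ]
  refine ⟨-(A' * (A.map Ψ).map TrivSqZeroExt.snd), fun x => ?_⟩
  set DA := (A.map Ψ).map TrivSqZeroExt.snd with hDA
  have key : ∀ i, ((A.map Ψ) *ᵥ ev (fun a => Ψ (y a))
      (fun l => (TrivSqZeroExt.inl (x l) : DualNumber K))) i =
      ev (fun a => Ψ (y a)) ((A.map Ψ) *ᵥ fun l => (TrivSqZeroExt.inl (x l) : DualNumber K)) i := by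
    intro i
    have h1 := ev_conj (fun a => Ψ (y a)) (A.map Ψ) (A'.map Ψ)
      (fun l => (TrivSqZeroExt.inl (x l) : DualNumber K))
    rw [hc] at h1
    rw [h1, Matrix.mulVec_mulVec, hAA, Matrix.one_mulVec]
  have key2 : A *ᵥ ev (fun a => (Ψ (y a)).snd) x + DA *ᵥ ev y x =
      ev (fun a => (Ψ (y a)).snd) (A *ᵥ x) + dev y (A *ᵥ x) (DA *ᵥ x) := by
    funext i
    have h2 := congrArg TrivSqZeroExt.snd (key i)
    rw [mulVec_snd, ev_snd, hf1, ← hDA] at h2
    have e1 : (fun l => (ev (fun a => Ψ (y a)) (fun l => (TrivSqZeroExt.inl (x l) : DualNumber K))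
        l).snd) = ev (fun a => (Ψ (y a)).snd) x := by
      funext l
      rw [ev_snd]
      simp only [TrivSqZeroExt.fst_inl, TrivSqZeroExt.snd_inl]
      have e2 : (fun _ : Fin n => (0 : K)) = 0 := rfl
      rw [e2, dev_zero, Pi.zero_apply, add_zero]
    have e3 : (fun l => (ev (fun a => Ψ (y a)) (fun l => (TrivSqZeroExt.inl (x l) : DualNumber K))
        l).fst) = ev y x := by
      funext l
      rw [ev_fst]
      simp only [TrivSqZeroExt.fst_inl, hΨ]
    have e4 : (fun l => ((A.map Ψ *ᵥ fun l => (TrivSqZeroExt.inl (x l) : DualNumber K)) l).fst) =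
        A *ᵥ x := by
      funext l
      rw [mulVec_fst, hf1]
      simp only [TrivSqZeroExt.fst_inl]
    have e5 : (fun l => ((A.map Ψ *ᵥ fun l => (TrivSqZeroExt.inl (x l) : DualNumber K)) l).snd) =
        DA *ᵥ x := by
      funext l
      rw [mulVec_snd, hf1, ← hDA]
      simp only [TrivSqZeroExt.fst_inl, TrivSqZeroExt.snd_inl]
      have e2 : (fun _ : Fin n => (0 : K)) = 0 := rfl
      rw [e2, Matrix.mulVec_zero, Pi.zero_apply, zero_add]
    rw [e1, e3, e4, e5] at h2
    simp only [hΨ] at h2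
    exact h2
  have e6 : A *ᵥ dev y x (-(A' * DA) *ᵥ x) = - dev y (A *ᵥ x) (DA *ᵥ x) := by
    rw [← chain_fix hA h, Matrix.mulVec_mulVec, Matrix.mul_neg, ← mul_assoc, hA, one_mul,
      Matrix.neg_mulVec, dev_neg]
  have e7 : A *ᵥ (-(A' * DA) *ᵥ ev y x) = - (DA *ᵥ ev y x) := by
    rw [Matrix.mulVec_mulVec, Matrix.mul_neg, ← mul_assoc, hA, one_mul, Matrix.neg_mulVec]
  rw [Matrix.mulVec_sub, e6, e7]
  have : ev (fun a => (Ψ (y a)).snd) (A *ᵥ x) =
      A *ᵥ ev (fun a => (Ψ (y a)).snd) x + DA *ᵥ ev y x - dev y (A *ᵥ x) (DA *ᵥ x) := by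
    rw [key2]; abel
  rw [this]
  abel

end fld

end Pool.Agent.D0H50.SM
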