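import Mathlib

set_option autoImplicit false

/-!
# Project SM: derivations of the function field of a divisor extend to its algebraic closure
-/

namespace Pool.Agent.D0H50.SM

open MvPolynomial

universe u

/-- Lifting along a square-zero extension. -/
theorem lift_alg {κ Ω S : Type u} [Field κ] [Field Ω] [CommRing S] [Algebra κ Ω]
    [Algebra.FormallySmooth κ Ω] (g : S →+* Ω) (hg : Function.Surjective g)
    (hk : IsNilpotent (RingHom.ker g)) (θ : κ →+* S) (h : g.comp θ = algebraMap κ Ω) :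
    ∃ Ψ : Ω →+* S, (∀ t, g (Ψ t) = t) ∧ ∀ t, Ψ (algebraMap κ Ω t) = θ t := by
  letI : Algebra κ S := θ.toAlgebra
  let g' : S →ₐ[κ] Ω := { g with commutes' := fun t => congrArg (fun f : κ →+* Ω => f t) h }
  have hg' : Function.Surjective g' := hg
  have hk' : IsNilpotent (RingHom.ker g') := hk
  refine ⟨(Algebra.FormallySmooth.liftOfSurjective (AlgHom.id κ Ω) g' hg' hk').toRingHom,
    fun t => ?_, fun t => ?_⟩
  · exact Algebra.FormallySmooth.liftOfSurjective_apply (AlgHom.id κ Ω) g' hg' hk' t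
  · exact (Algebra.FormallySmooth.liftOfSurjective (AlgHom.id κ Ω) g' hg' hk').commutes t

theorem ker_fst_nilpotent (Ω : Type u) [Field Ω] :
    IsNilpotent (RingHom.ker (TrivSqZeroExt.fstHom Ω Ω Ω).toRingHom) := by
  refine ⟨2, (pow_two (RingHom.ker (TrivSqZeroExt.fstHom Ω Ω Ω).toRingHom)).trans ?_⟩
  rw [Ideal.zero_eq_bot, eq_bot_iff, Ideal.mul_le]
  intro a ha b hb
  rw [RingHom.mem_ker] at ha hb
  have ha' : a.fst = 0 := ha
  have hb' : b.fst = 0 := hb
  rw [Ideal.mem_bot]
  apply TrivSqZeroExt.ext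
  · simp [ha']
  · simp [ha', hb']

section main

variable {σ : Type} [Fintype σ] {k κ Ω : Type u} [Field k] [Field κ] [Field Ω] [Algebra κ Ω]

/-- `F ↦ φ F + ε Σ φ(∂F) v`. -/
noncomputable def th (φ : MvPolynomial σ k →+* κ) (v : σ → Ω) : MvPolynomial σ k →+* DualNumber Ω :=
  eval₂Hom ((TrivSqZeroExt.inlHom Ω Ω).comp ((algebraMap κ Ω).comp (φ.comp C)))
    (fun ρ => TrivSqZeroExt.inl (algebraMap κ Ω (φ (X ρ))) + TrivSqZeroExt.inr (v ρ))

theorem th_fst (φ : MvPolynomial σ k →+* κ) (v : σ → Ω) (F : MvPolynomial σ k) :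
    (th φ v F).fst = algebraMap κ Ω (φ F) := by
  have : (TrivSqZeroExt.fstHom Ω Ω Ω).toRingHom.comp (th φ v) = (algebraMap κ Ω).comp φ := by
    apply MvPolynomial.ringHom_ext
    · intro a
      simp [th]
    · intro ρ
      simp [th]
  exact congrArg (fun f : MvPolynomial σ k →+* Ω => f F) this

theorem th_snd (φ : MvPolynomial σ k →+* κ) (v : σ → Ω) (F : MvPolynomial σ k) :
    (th φ v F).snd = ∑ ρ, algebraMap κ Ω (φ (pderiv ρ F)) * v ρ := by
  classical
  induction F using MvPolynomial.induction_on with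
  | C a => simp [th]
  | add p q hp hq =>
    rw [map_add, TrivSqZeroExt.snd_add, hp, hq, ← Finset.sum_add_distrib]
    refine Finset.sum_congr rfl fun ρ _ => ?_
    rw [map_add, map_add, map_add, add_mul]
  | mul_X p i hp =>
    have hX : (th φ v (X i)).snd = v i := by simp [th]
    rw [map_mul, DualNumber.snd_mul, hp, hX, th_fst, th_fst, Finset.sum_mul]
    have h1 : ∀ ρ, algebraMap κ Ω (φ (pderiv ρ (p * X i))) * v ρ =
        (if ρ = i then algebraMap κ Ω (φ p) * v i else 0) +
        algebraMap κ Ω (φ (pderiv ρ p)) * v ρ * algebraMap κ Ω (φ (X i)) := by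
      intro ρ
      rw [Derivation.leibniz, pderiv_X, map_add, map_add]
      by_cases h : ρ = i
      · subst h
        simp only [Pi.single_eq_same, smul_eq_mul, mul_one, if_true, map_mul]
        ring
      · rw [Pi.single_eq_of_ne' h, if_neg h]
        simp only [smul_eq_mul, mul_zero, map_zero, map_mul]
        ring
    rw [Finset.sum_congr rfl fun ρ _ => h1 ρ, Finset.sum_add_distrib, Finset.sum_ite_eq']
    simp

/-- A vector `v` tangent to `p = 0` at the generic point gives a derivation of `Ω`. -/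
theorem exists_der [CharZero k] [Algebra.IsAlgebraic κ Ω] (p : MvPolynomial σ k)
    (φ : MvPolynomial σ k →+* κ) (hker : RingHom.ker φ = Ideal.span {p})
    (hfrac : ∀ t : κ, ∃ a b, φ b ≠ 0 ∧ t * φ b = φ a) (v : σ → Ω)
    (hv : ∑ ρ, algebraMap κ Ω (φ (pderiv ρ p)) * v ρ = 0) :
    ∃ Ψ : Ω →+* DualNumber Ω, (∀ t, (Ψ t).fst = t) ∧
      ∀ F, Ψ (algebraMap κ Ω (φ F)) = th φ v F := by
  have hp0 : φ p = 0 := by
    rw [← RingHom.mem_ker, hker]
    exact Ideal.mem_span_singleton_self p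
  have hthp : th φ v p = 0 := by
    apply TrivSqZeroExt.ext
    · rw [th_fst, hp0]; simp
    · rw [th_snd, hv]; simp
  have hle : ∀ a ∈ RingHom.ker φ, th φ v a = 0 := by
    intro a ha
    rw [hker, Ideal.mem_span_singleton] at ha
    obtain ⟨q, rfl⟩ := ha
    rw [map_mul, hthp, zero_mul]
  have hunit : ∀ b, φ b ≠ 0 → IsUnit (th φ v b) := by
    intro b hb
    have h1 : IsUnit (th φ v b).fst := by
      rw [th_fst]
      exact isUnit_iff_ne_zero.2 (fun h => hb ((algebraMap κ Ω).injective (by rw [h, map_zero])))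
    exact TrivSqZeroExt.isUnit_iff_isUnit_fst.2 h1
  -- the map on κ
  haveI : (RingHom.ker φ).IsPrime := RingHom.ker_isPrime φ
  letI : Algebra (MvPolynomial σ k ⧸ RingHom.ker φ) κ := (RingHom.kerLift φ).toAlgebra
  have hal : ∀ x : MvPolynomial σ k, algebraMap (MvPolynomial σ k ⧸ RingHom.ker φ) κ
      (Ideal.Quotient.mk _ x) = φ x := fun x => rfl
  have hinj : Function.Injective (algebraMap (MvPolynomial σ k ⧸ RingHom.ker φ) κ) :=
    RingHom.kerLift_injective φ
  haveI : IsFractionRing (MvPolynomial σ k ⧸ RingHom.ker φ) κ := by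
    refine ⟨fun y => ?_, fun t => ?_, fun {x y} hxy => ⟨1, ?_⟩⟩
    · apply isUnit_iff_ne_zero.2
      intro h
      have := hinj (h.trans (map_zero _).symm)
      exact nonZeroDivisors.coe_ne_zero y this
    · obtain ⟨a, b, hb, h⟩ := hfrac t
      refine ⟨⟨Ideal.Quotient.mk _ a, ⟨Ideal.Quotient.mk _ b, ?_⟩⟩, ?_⟩
      · rw [mem_nonZeroDivisors_iff_ne_zero]
        intro h0
        apply hb
        rw [← hal, h0, map_zero]
      · change t * algebraMap _ κ (Ideal.Quotient.mk _ b) = algebraMap _ κ (Ideal.Quotient.mk _ a)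
        rw [hal, hal]
        exact h
    · rw [hinj hxy]
  let g0 : MvPolynomial σ k ⧸ RingHom.ker φ →+* DualNumber Ω :=
    Ideal.Quotient.lift _ (th φ v) hle
  have hg0 : ∀ y : nonZeroDivisors (MvPolynomial σ k ⧸ RingHom.ker φ), IsUnit (g0 y) := by
    intro y
    obtain ⟨b, hb⟩ := Ideal.Quotient.mk_surjective (y : MvPolynomial σ k ⧸ RingHom.ker φ)
    have h1 : φ b ≠ 0 := by
      intro h
      apply nonZeroDivisors.coe_ne_zero y
      rw [← hb]
      exact Ideal.Quotient.eq_zero_iff_mem.2 h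
    rw [← hb]
    exact hunit b h1
  let θ : κ →+* DualNumber Ω := IsLocalization.lift hg0
  have hθ : ∀ F, θ (φ F) = th φ v F := by
    intro F
    exact IsLocalization.lift_eq (M := nonZeroDivisors (MvPolynomial σ k ⧸ RingHom.ker φ))
      (S := κ) hg0 (Ideal.Quotient.mk _ F)
  have hfst : (TrivSqZeroExt.fstHom Ω Ω Ω).toRingHom.comp θ = algebraMap κ Ω := by
    ext t
    obtain ⟨a, b, hb, h⟩ := hfrac t
    have h1 := congrArg (fun s => (TrivSqZeroExt.fstHom Ω Ω Ω).toRingHom (θ s)) h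
    simp only [map_mul, hθ] at h1
    have h2 : ∀ F, (TrivSqZeroExt.fstHom Ω Ω Ω).toRingHom (th φ v F) = algebraMap κ Ω (φ F) :=
      fun F => th_fst φ v F
    rw [h2, h2, ← h, map_mul] at h1
    have h3 : algebraMap κ Ω (φ b) ≠ 0 :=
      fun h => hb ((algebraMap κ Ω).injective (by rw [h, map_zero]))
    exact mul_right_cancel₀ h3 h1
  -- κ has characteristic 0
  haveI : CharZero κ := charZero_of_injective_ringHom (f := φ.comp C) (RingHom.injective _)
  haveI : Algebra.IsSeparable κ Ω := inferInstance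
  haveI : Algebra.FormallyEtale κ Ω := Algebra.FormallyEtale.of_isSeparable κ Ω
  obtain ⟨Ψ, h1, h2⟩ := lift_alg (TrivSqZeroExt.fstHom Ω Ω Ω).toRingHom
    (fun t => ⟨TrivSqZeroExt.inl t, by simp⟩) (ker_fst_nilpotent Ω) θ hfst
  exact ⟨Ψ, h1, fun F => by rw [h2, hθ]⟩

end main

end Pool.Agent.D0H50.SM
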