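import Pool.Agent.D0H50.SM.Dual
import Pool.Agent.D0H50.SM.Ext
import Pool.Agent.D0H21.SM.Dom2
import Pool.Agent.D0H70.SM.J0

set_option autoImplicit false

/-!
# Project SM, module GEN: the generic point of a divisor on the slice
-/

namespace Pool.Agent.D0H50.SM

open Pool.Agent.D0H90.SM Matrix

universe u

section base

variable {n d : ℕ}

/-- The matrix of the transversality condition. -/
noncomputable def TM {R : Type*} [CommRing R] (c : Cf n d → R) :
    Matrix (Fin n × Fin n) (Fin n × Fin n) R := Pool.Agent.D0H21.SM.LL c 1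

theorem TM_mulVec {R : Type*} [CommRing R] (c : Cf n d → R) (B : Matrix (Fin n) (Fin n) R)
    (j i : Fin n) : (TM c *ᵥ fun q => B q.1 q.2) (j, i) =
      (dev c (bas i) (B *ᵥ bas i) - B *ᵥ ev c (bas i)) j := by
  unfold TM
  rw [Pool.Agent.D0H21.SM.LL_mulVec, Matrix.det_one, Matrix.adjugate_one, Matrix.one_mulVec, one_mul]
  have h1 : (fun l => (1 : Matrix (Fin n) (Fin n) R) l i) = bas i := by
    funext l
    change (1 : Matrix (Fin n) (Fin n) R) l i = (Pi.single i 1 : Fin n → R) l
    rw [Matrix.one_apply, Pi.single_apply]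
  have h2 : (fun l => B l i) = B *ᵥ bas i := by
    funext l
    simp
  rw [h1, h2, Pi.sub_apply]

theorem TM_map (hb : S_BASE.{u}) {R S : Type u} [CommRing R] [CommRing S] (φ : R →+* S)
    (c : Cf n d → R) : TM (fun a => φ (c a)) = (TM c).map φ := by
  have := Pool.Agent.D0H21.SM.LL_map hb φ c (1 : Matrix (Fin n) (Fin n) R)
  rw [Matrix.map_one φ (map_zero φ) (map_one φ)] at this
  exact this

theorem transv_iff {K : Type u} [Field K] (c : Cf n d → K) : Transv c ↔ (TM c).det ≠ 0 := by
  constructor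
  · intro h h0
    obtain ⟨w, hw, hw0⟩ := Matrix.exists_mulVec_eq_zero_iff.2 h0
    have h1 := h (Matrix.of fun i j => w (i, j)) (fun i => by
      rw [← sub_eq_zero]
      funext j
      have h2 := TM_mulVec c (Matrix.of fun i j => w (i, j)) j i
      rw [← h2]
      have h3 : (fun q : Fin n × Fin n => (Matrix.of fun i j => w (i, j)) q.1 q.2) = w := by
        funext q
        rfl
      rw [h3, hw0]
      rfl)
    apply hw
    funext q
    have := congrFun (congrFun h1 q.1) q.2
    exact this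
  · intro h B hB
    by_contra hne
    apply h
    rw [← Matrix.exists_mulVec_eq_zero_iff]
    refine ⟨fun q => B q.1 q.2, fun h0 => hne ?_, ?_⟩
    · ext i j
      exact congrFun h0 (i, j)
    · funext p
      obtain ⟨j, i⟩ := p
      rw [TM_mulVec, hB i, sub_self]
      rfl

end base

section gen

variable {n d : ℕ} {k : Type u} [Field k]

/-- The generic point of the slice through `c`. -/
noncomputable def gp (c : Cf n d → k) : Cf n d → MvPolynomial (Rest n d) k :=
  fun a => glue (fun a => (MvPolynomial.C (c a) : MvPolynomial (Rest n d) k)) MvPolynomial.X a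

theorem gp_rest (c : Cf n d → k) (a : Cf n d) (h : ¬ ∃ i, (a.2.1 i : ℕ) = d) :
    gp c a = MvPolynomial.X ⟨a, h⟩ := by
  unfold gp glue
  rw [dif_neg h]

theorem gp_pow (c : Cf n d → k) (a : Cf n d) (h : ∃ i, (a.2.1 i : ℕ) = d) :
    gp c a = MvPolynomial.C (c a) := by
  unfold gp glue
  rw [dif_pos h]

theorem eval_gp (c : Cf n d → k) (a : Cf n d) : MvPolynomial.eval (rest c) (gp c a) = c a := by
  by_cases h : ∃ i, (a.2.1 i : ℕ) = d
  · rw [gp_pow c a h, MvPolynomial.eval_C]
  · rw [gp_rest c a h, MvPolynomial.eval_X]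
    rfl

variable (c : Cf n d → k) (p : MvPolynomial (Rest n d) k)
  {κ Ω : Type u} [Field κ] [Field Ω] [Algebra κ Ω] (φ : MvPolynomial (Rest n d) k →+* κ)

theorem phi_ne (hp : MvPolynomial.eval (rest c) p = 0) (hker : RingHom.ker φ = Ideal.span {p})
    (b : MvPolynomial (Rest n d) k) (hb : MvPolynomial.eval (rest c) b ≠ 0) : φ b ≠ 0 := by
  intro h
  rw [← RingHom.mem_ker, hker, Ideal.mem_span_singleton] at h
  obtain ⟨q, rfl⟩ := h
  apply hb
  rw [map_mul, hp, zero_mul]

theorem y_transv (hb : S_BASE.{u}) (hT : Transv c) (hp : MvPolynomial.eval (rest c) p = 0)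
    (hker : RingHom.ker φ = Ideal.span {p}) :
    Transv (fun a => algebraMap κ Ω (φ (gp c a))) := by
  rw [transv_iff]
  have h1 : TM (fun a => algebraMap κ Ω (φ (gp c a))) =
      (TM (gp c)).map ((algebraMap κ Ω).comp φ) := TM_map hb ((algebraMap κ Ω).comp φ) (gp c)
  have h2 : TM c = (TM (gp c)).map (MvPolynomial.eval (rest c)) := by
    have := TM_map hb (MvPolynomial.eval (rest c)) (gp c)
    rw [← this]
    congr 1
    funext a
    exact (eval_gp c a).symm
  have h3 : MvPolynomial.eval (rest c) (TM (gp c)).det ≠ 0 := by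
    rw [RingHom.map_det, RingHom.mapMatrix_apply, ← h2]
    exact (transv_iff c).1 hT
  have h4 := phi_ne c p φ hp hker _ h3
  have h5 : algebraMap κ Ω (φ (TM (gp c)).det) ≠ 0 := by
    intro h
    exact h4 ((algebraMap κ Ω).injective (by rw [h, map_zero]))
  have h6 : (((algebraMap κ Ω).comp φ).mapMatrix (TM (gp c))).det =
      algebraMap κ Ω (φ (TM (gp c)).det) := by
    rw [← RingHom.map_det]
    rfl
  rw [h1, ← RingHom.mapMatrix_apply, h6]
  exact h5

/-- Strong nondegeneracy gives nondegeneracy over every field. -/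
theorem nondeg_of_strong (hb : S_BASE.{u}) {O : Type u} [CommRing O] (w : Cf n d → O)
    (hw : Strong w) (ψ : O →+* Ω) : Nondeg (fun a => ψ (w a)) := by
  obtain ⟨b1, b2, b3, -⟩ := hb
  intro x hx
  obtain ⟨M, hM⟩ := hw
  funext l
  have h1 : ∀ F ∈ Ideal.span (Set.range (ev (fun b => (MvPolynomial.C (w b) :
      MvPolynomial (Fin n) O)) MvPolynomial.X)), MvPolynomial.eval₂Hom ψ x F = 0 := by
    intro F hF
    have hle : Ideal.span (Set.range (ev (fun b => (MvPolynomial.C (w b) :
      MvPolynomial (Fin n) O)) MvPolynomial.X)) ≤ RingHom.ker (MvPolynomial.eval₂Hom ψ x) := by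
      rw [Ideal.span_le]
      rintro _ ⟨j, rfl⟩
      rw [SetLike.mem_coe, RingHom.mem_ker]
      have h2 := congrFun (b3 _ _ (MvPolynomial.eval₂Hom ψ x) n d
        (fun b => (MvPolynomial.C (w b) : MvPolynomial (Fin n) O)) MvPolynomial.X) j
      rw [← h2]
      have h3 : (fun a => MvPolynomial.eval₂Hom ψ x (MvPolynomial.C (w a))) = fun a => ψ (w a) := by
        funext a
        simp
      have h4 : (fun l => MvPolynomial.eval₂Hom ψ x (MvPolynomial.X l)) = x := by
        funext l
        simp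
      rw [h3, h4, hx]
      rfl
    exact hle hF
  have h5 := h1 _ (hM l)
  rw [map_pow, MvPolynomial.eval₂Hom_X'] at h5
  exact eq_zero_of_pow_eq_zero h5

theorem y_nondeg [IsAlgClosed k] (hb : S_BASE.{u}) (hN : S_NDG.{u}) (hc : Nondeg c)
    (hp : MvPolynomial.eval (rest c) p = 0) (hker : RingHom.ker φ = Ideal.span {p}) :
    Nondeg (fun a => algebraMap κ Ω (φ (gp c a))) := by
  let 𝔪 : Ideal (MvPolynomial (Rest n d) k) := RingHom.ker (MvPolynomial.eval (rest c))
  haveI : 𝔪.IsPrime := RingHom.ker_isPrime _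
  have hu1 : ∀ y : 𝔪.primeCompl, IsUnit (MvPolynomial.eval (rest c) (y : MvPolynomial (Rest n d) k)) :=
    fun y => isUnit_iff_ne_zero.2 fun h => y.2 ((RingHom.mem_ker).2 h)
  have hu2 : ∀ y : 𝔪.primeCompl,
      IsUnit (((algebraMap κ Ω).comp φ) (y : MvPolynomial (Rest n d) k)) := by
    intro y
    apply isUnit_iff_ne_zero.2
    intro h
    have h1 : φ (y : MvPolynomial (Rest n d) k) = 0 :=
      (algebraMap κ Ω).injective (by rw [map_zero]; exact h)
    exact phi_ne c p φ hp hker _ (fun h2 => y.2 ((RingHom.mem_ker).2 h2)) h1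
  let π : Localization.AtPrime 𝔪 →+* k := IsLocalization.lift hu1
  let ψ : Localization.AtPrime 𝔪 →+* Ω := IsLocalization.lift hu2
  have hπ : ∀ F, π (algebraMap _ _ F) = MvPolynomial.eval (rest c) F :=
    fun F => IsLocalization.lift_eq hu1 F
  have hψ : ∀ F, ψ (algebraMap _ _ F) = algebraMap κ Ω (φ F) :=
    fun F => IsLocalization.lift_eq hu2 F
  have hsurj : Function.Surjective π := fun t =>
    ⟨algebraMap _ _ (MvPolynomial.C t), by rw [hπ, MvPolynomial.eval_C]⟩
  have hstr : Strong (fun a => algebraMap (MvPolynomial (Rest n d) k) (Localization.AtPrime 𝔪)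
      (gp c a)) := by
    refine hN _ k π hsurj n d _ ?_
    have : (fun a => π (algebraMap (MvPolynomial (Rest n d) k) (Localization.AtPrime 𝔪)
      (gp c a))) = c := by
      funext a
      rw [hπ, eval_gp]
    rw [this]
    exact hc
  have h1 := nondeg_of_strong (Ω := Ω) hb _ hstr ψ
  have h2 : (fun a => ψ (algebraMap (MvPolynomial (Rest n d) k) (Localization.AtPrime 𝔪)
      (gp c a))) = fun a => algebraMap κ Ω (φ (gp c a)) := by
    funext a
    rw [hψ]
  rw [← h2]
  exact h1

/-- The tuple with the coefficients `v` on `Rest` and `0` elsewhere. -/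
noncomputable def io (v : Rest n d → Ω) : Cf n d → Ω :=
  open Classical in fun a => if h : ∃ i, (a.2.1 i : ℕ) = d then 0 else v ⟨a, h⟩

theorem io_sub_smul (v w : Rest n d → Ω) (r : Ω) : io (v - r • w) = io v - r • io w := by
  funext a
  simp only [io, Pi.sub_apply, Pi.smul_apply]
  split_ifs <;> simp

theorem io_mem [CharZero k] [Algebra.IsAlgebraic κ Ω] [Infinite Ω]
    (hker : RingHom.ker φ = Ideal.span {p})
    (hfrac : ∀ t : κ, ∃ a b, φ b ≠ 0 ∧ t * φ b = φ a)
    {A A' : Matrix (Fin n) (Fin n) Ω} (hA : A * A' = 1)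
    (hfix : Fixes A (fun a => algebraMap κ Ω (φ (gp c a)))) (v : Rest n d → Ω)
    (hv : ∑ ρ, algebraMap κ Ω (φ (MvPolynomial.pderiv ρ p)) * v ρ = 0) :
    io v ∈ WW (fun a => algebraMap κ Ω (φ (gp c a))) A := by
  classical
  obtain ⟨Ψ, h1, h2⟩ := exists_der p φ hker hfrac v hv
  have h3 := deriv_mem hA hfix Ψ h1
  have h4 : (fun a => (Ψ (algebraMap κ Ω (φ (gp c a)))).snd) = io v := by
    funext a
    rw [h2, th_snd]
    unfold io
    split_ifs with h
    · rw [gp_pow c a h]
      simp
    · rw [gp_rest c a h, Finset.sum_eq_single (⟨a, h⟩ : Rest n d)]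
      · rw [MvPolynomial.pderiv_X_self]
        simp
      · intro ρ _ hρ
        rw [MvPolynomial.pderiv_X_of_ne (Ne.symm hρ)]
        simp
      · intro h'
        exact absurd (Finset.mem_univ _) h'
  rw [← h4]
  exact h3

end gen

theorem t_GEN : S_BASE.{u} → S_CODIM.{u} → S_NDG.{u} → S_GEN.{u} := by
  intro hb hcod hN k _ _ _ n d hn hd c hc hT p hirr hp κ Ω _ _ _ _ φ hker hfrac y hy
  classical
  have hy' : y = fun a => algebraMap κ Ω (φ (gp c a)) := hy
  have halg : Algebra.IsAlgebraic κ Ω := IsAlgClosure.isAlgebraic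
  have hclosed : IsAlgClosed Ω := IsAlgClosure.isAlgClosed κ
  have hchar : CharZero Ω := charZero_of_injective_ringHom
    (f := (algebraMap κ Ω).comp (φ.comp MvPolynomial.C)) (RingHom.injective _)
  have hinf : Infinite Ω := inferInstance
  rw [hy']
  have hnd := y_nondeg (Ω := Ω) c p φ hb hN hc hp hker
  have htr := y_transv (Ω := Ω) c p φ hb hT hp hker
  refine ⟨hnd, htr, fun A A' hA hfix => ?_⟩
  by_contra hns
  have hfin := hcod Ω n d hn hd _ hnd A A' hA hfix hns
    (WW (fun a => algebraMap κ Ω (φ (gp c a))) A) (fun v hv => hv)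
  set Y : Cf n d → Ω := fun a => algebraMap κ Ω (φ (gp c a)) with hY
  set g : Rest n d → Ω := fun ρ => algebraMap κ Ω (φ (MvPolynomial.pderiv ρ p)) with hg
  have hio : ∀ v : Rest n d → Ω, ∑ ρ, g ρ * v ρ = 0 → io v ∈ WW Y A :=
    fun v hv => io_mem c p φ hker hfrac hA hfix v hv
  -- one more vector is enough
  obtain ⟨e, he⟩ : ∃ e : Cf n d → Ω, ∀ v : Rest n d → Ω, ∃ r : Ω, io v - r • e ∈ WW Y A := by
    by_cases h0 : ∀ ρ, g ρ = 0
    · refine ⟨0, fun v => ⟨0, ?_⟩⟩
      rw [smul_zero, sub_zero]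
      exact hio v (Finset.sum_eq_zero fun ρ _ => by rw [h0, zero_mul])
    · push Not at h0
      obtain ⟨ρ₀, hρ⟩ := h0
      refine ⟨io (Pi.single ρ₀ 1), fun v => ⟨(∑ ρ, g ρ * v ρ) / g ρ₀, ?_⟩⟩
      rw [← io_sub_smul]
      apply hio
      have h1 : ∀ ρ, g ρ * (v - ((∑ ρ, g ρ * v ρ) / g ρ₀) • (Pi.single ρ₀ 1 : Rest n d → Ω)) ρ =
          g ρ * v ρ - (if ρ = ρ₀ then g ρ₀ * ((∑ ρ, g ρ * v ρ) / g ρ₀) else 0) := by
        intro ρ
        by_cases h : ρ = ρ₀
        · subst h
          simp [mul_sub]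
        · simp [h]
      rw [Finset.sum_congr rfl fun ρ _ => h1 ρ, Finset.sum_sub_distrib, Finset.sum_ite_eq',
        if_pos (Finset.mem_univ _), mul_div_cancel₀ _ hρ, sub_self]
  have htop : (⊤ : Submodule Ω (Cf n d → Ω)) ≤ WW Y A ⊔ Submodule.span Ω {e} := by
    intro v _
    obtain ⟨B, hB⟩ := Pool.Agent.D0H70.SM.Lam_surj Y htr (fun i => ev v (bas i))
    set w : Cf n d → Ω := v - xi Y (Matrix.of B) with hw
    have hw0 : ∀ i, ev w (bas i) = 0 := by
      intro i
      have h1 : ev v (bas i) = ev w (bas i) + ev (xi Y (Matrix.of B)) (bas i) := by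
        rw [← ev_add_cf, hw, sub_add_cancel]
      have h2 := congrFun hB i
      have h3 : Pool.Agent.D0H70.SM.Lam Y B i =
          dev Y (bas i) (Matrix.of B *ᵥ bas i) - Matrix.of B *ᵥ ev Y (bas i) := rfl
      rw [h3] at h2
      rw [xi_ev, h2] at h1
      have h4 : ev w (bas i) + ev v (bas i) = 0 + ev v (bas i) := by rw [← h1, zero_add]
      exact add_right_cancel h4
    have hwio : w = io (fun ρ => w ρ.1) := by
      funext a
      unfold io
      split_ifs with h
      · obtain ⟨i, hi⟩ := h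
        have := Pool.Agent.D0H70.SM.ev_bas w a.2 i a.1 hi
        rw [hw0 i] at this
        exact this.symm
      · rfl
    obtain ⟨r, hr⟩ := he (fun ρ => w ρ.1)
    rw [← hwio] at hr
    have h5 : v = (xi Y (Matrix.of B) + (w - r • e)) + r • e := by
      rw [hw]; abel
    rw [h5]
    exact Submodule.add_mem_sup ((WW Y A).add_mem (xi_mem hA hfix _) hr)
      (Submodule.smul_mem _ _ (Submodule.mem_span_singleton_self e))
  have h6 : Fintype.card (Cf n d) ≤ Module.finrank Ω (WW Y A) + 1 := by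
    have h7 : Module.finrank Ω (⊤ : Submodule Ω (Cf n d → Ω)) = Fintype.card (Cf n d) := by
      rw [finrank_top, Module.finrank_fintype_fun_eq_card]
    have h8 := Submodule.finrank_mono htop
    have h9 := Submodule.finrank_add_le_finrank_add_finrank (WW Y A) (Submodule.span Ω {e})
    have h10 : Module.finrank Ω (Submodule.span Ω {e}) ≤ 1 := by
      have := finrank_span_le_card (R := Ω) ({e} : Set (Cf n d → Ω))
      simpa using this
    omega
  omega

end Pool.Agent.D0H50.SM
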