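import Pool.Agent.D0H90.SM.Stm

set_option autoImplicit false

/-!
# Project SM, module ORD: an automorphism of a nondegenerate tuple of forms has finite order
-/

namespace Pool.Agent.D0H50.SM

open Pool.Agent.D0H90.SM Matrix

universe u

section general

variable {n d : ℕ}

theorem mon_smul {R : Type*} [CommRing R] (m : Ex n d) (r : R) (x : Fin n → R) :
    mon m (r • x) = r ^ d * mon m x := by
  unfold mon
  simp only [Pi.smul_apply, smul_eq_mul, mul_pow, Finset.prod_mul_distrib]
  rw [Finset.prod_pow_eq_pow_sum, m.2]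

theorem ev_smul {R : Type*} [CommRing R] (c : Cf n d → R) (r : R) (x : Fin n → R) :
    ev c (r • x) = r ^ d • ev c x := by
  funext i
  simp only [ev, mon_smul, Pi.smul_apply, smul_eq_mul, Finset.mul_sum]
  exact Finset.sum_congr rfl fun m _ => by ring

theorem coeff_prod_pow {ι : Type*} {K : Type*} [CommRing K] (s : Finset ι)
    (P : ι → Polynomial K) (e : ι → ℕ) (r : ℕ) (hP : ∀ l ∈ s, (P l).natDegree ≤ r) :
    (∏ l ∈ s, P l ^ e l).natDegree ≤ (∑ l ∈ s, e l) * r ∧
    (∏ l ∈ s, P l ^ e l).coeff ((∑ l ∈ s, e l) * r) = ∏ l ∈ s, ((P l).coeff r) ^ e l := by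
  classical
  induction s using Finset.induction_on with
  | empty => simp
  | insert a s ha ih =>
    obtain ⟨h1, h2⟩ := ih (fun l hl => hP l (Finset.mem_insert_of_mem hl))
    have h3 := hP a (Finset.mem_insert_self a s)
    have h4 : (P a ^ e a).natDegree ≤ e a * r := Polynomial.natDegree_pow_le_of_le _ h3
    rw [Finset.prod_insert ha, Finset.sum_insert ha, Finset.prod_insert ha, add_mul]
    refine ⟨(Polynomial.natDegree_mul_le).trans (add_le_add h4 h1), ?_⟩
    rw [Polynomial.coeff_mul_add_eq_of_natDegree_le h4 h1, h2, Polynomial.coeff_pow_of_natDegree_le h3]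

/-- If `f(P(t)) = Q(t)` for infinitely many `t`, with `P`, `Q` of degree at most `r`, `r ≥ 1`, then
`f` vanishes at the coefficient of `t^r` in `P` (`d ≥ 2`). -/
theorem lead_zero {K : Type*} [Field K] (c : Cf n d → K) (hd : 2 ≤ d) (r : ℕ) (hr : 1 ≤ r)
    (P Q : Fin n → Polynomial K) (hP : ∀ l, (P l).natDegree ≤ r)
    (hQ : ∀ l, (Q l).natDegree ≤ r) (T : Set K) (hT : T.Infinite)
    (h : ∀ t ∈ T, ev c (fun l => (P l).eval t) = fun i => (Q i).eval t) :
    ev c (fun l => (P l).coeff r) = 0 := by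
  funext i
  have hpoly : (∑ m : Ex n d, Polynomial.C (c (i, m)) * ∏ l, P l ^ (m.1 l : ℕ)) = Q i := by
    apply Polynomial.eq_of_infinite_eval_eq
    refine hT.mono fun t ht => ?_
    have h1 := congrFun (h t ht) i
    simp only [Set.mem_ofPred_eq]
    rw [← h1]
    simp only [ev, mon, Polynomial.eval_finsetSum, Polynomial.eval_mul, Polynomial.eval_C,
      Polynomial.eval_prod, Polynomial.eval_pow]
  have hco := congrArg (fun p : Polynomial K => p.coeff (d * r)) hpoly
  have hQ0 : (Q i).coeff (d * r) = 0 := by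
    apply Polynomial.coeff_eq_zero_of_natDegree_lt
    have h2 := hQ i
    nlinarith
  rw [hQ0, Polynomial.finsetSum_coeff] at hco
  simp only [Pi.zero_apply, ev, mon]
  rw [← hco]
  refine Finset.sum_congr rfl fun m _ => ?_
  rw [Polynomial.coeff_C_mul]
  have h3 := (coeff_prod_pow Finset.univ P (fun l => (m.1 l : ℕ)) r (fun l _ => hP l)).2
  rw [m.2] at h3
  rw [h3]

/-- The polynomial `binom(T, j)`. -/
noncomputable def bp (K : Type*) [Field K] (j : ℕ) : Polynomial K :=
  Polynomial.C ((j.factorial : K)⁻¹) * descPochhammer K j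

theorem bp_eval {K : Type*} [Field K] [CharZero K] (j t : ℕ) :
    (bp K j).eval (t : K) = (t.choose j : K) := by
  unfold bp
  rw [Polynomial.eval_mul, Polynomial.eval_C, descPochhammer_eval_eq_descFactorial,
    Nat.descFactorial_eq_factorial_mul_choose]
  push_cast
  have : (j.factorial : K) ≠ 0 := by exact_mod_cast j.factorial_ne_zero
  field_simp

theorem bp_deg {K : Type*} [Field K] [CharZero K] (j : ℕ) : (bp K j).natDegree ≤ j := by
  unfold bp
  refine (Polynomial.natDegree_C_mul_le _ _).trans ?_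
  rw [descPochhammer_natDegree]

theorem bp_coeff {K : Type*} [Field K] [CharZero K] (j : ℕ) :
    (bp K j).coeff j = (j.factorial : K)⁻¹ := by
  unfold bp
  rw [Polynomial.coeff_C_mul]
  have h1 := (monic_descPochhammer K j).coeff_natDegree
  rw [descPochhammer_natDegree] at h1
  rw [h1, mul_one]

/-- The polynomial with values `(1 + N)^t x`. -/
noncomputable def pv {K : Type*} [Field K] (N : Matrix (Fin n) (Fin n) K) (r : ℕ)
    (x : Fin n → K) (l : Fin n) : Polynomial K :=
  ∑ j ∈ Finset.range (r + 1), Polynomial.C ((N ^ j *ᵥ x) l) * bp K j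

theorem pv_deg {K : Type*} [Field K] [CharZero K] (N : Matrix (Fin n) (Fin n) K) (r : ℕ)
    (x : Fin n → K) (l : Fin n) : (pv N r x l).natDegree ≤ r := by
  unfold pv
  refine Polynomial.natDegree_sum_le_of_forall_le _ _ fun j hj => ?_
  refine (Polynomial.natDegree_C_mul_le _ _).trans ((bp_deg j).trans ?_)
  have := Finset.mem_range.1 hj
  omega

theorem pv_coeff {K : Type*} [Field K] [CharZero K] (N : Matrix (Fin n) (Fin n) K) (r : ℕ)
    (x : Fin n → K) (l : Fin n) :
    (pv N r x l).coeff r = (r.factorial : K)⁻¹ * (N ^ r *ᵥ x) l := by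
  unfold pv
  rw [Polynomial.finsetSum_coeff, Finset.sum_range_succ, Finset.sum_eq_zero, zero_add,
    Polynomial.coeff_C_mul, bp_coeff, mul_comm]
  intro j hj
  rw [Polynomial.coeff_C_mul, Polynomial.coeff_eq_zero_of_natDegree_lt, mul_zero]
  exact (bp_deg j).trans_lt (Finset.mem_range.1 hj)

theorem pv_eval {K : Type*} [Field K] [CharZero K] (N : Matrix (Fin n) (Fin n) K) (r : ℕ)
    (hN : N ^ (r + 1) = 0) (x : Fin n → K) (l : Fin n) (t : ℕ) :
    (pv N r x l).eval (t : K) = ((N + 1) ^ t *ᵥ x) l := by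
  have hz : ∀ j, r < j → N ^ j = 0 := fun j hj => pow_eq_zero_of_le hj hN
  have h1 : (N + 1) ^ t = ∑ j ∈ Finset.range (t + 1), (t.choose j : K) • N ^ j := by
    rw [(Commute.one_right N).add_pow t]
    refine Finset.sum_congr rfl fun j _ => ?_
    rw [one_pow, mul_one, ← nsmul_eq_mul', Nat.cast_smul_eq_nsmul]
  have h2 : ∑ j ∈ Finset.range (t + 1), (t.choose j : K) • N ^ j =
      ∑ j ∈ Finset.range (r + 1), (t.choose j : K) • N ^ j := by
    have ha : ∑ j ∈ Finset.range (t + 1), (t.choose j : K) • N ^ j =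
        ∑ j ∈ Finset.range (t + r + 1), (t.choose j : K) • N ^ j := by
      refine Finset.sum_subset (fun j hj => ?_) fun j _ hj => ?_
      · rw [Finset.mem_range] at hj ⊢; omega
      · rw [Finset.mem_range] at hj
        rw [Nat.choose_eq_zero_of_lt (by omega), Nat.cast_zero, zero_smul]
    have hb : ∑ j ∈ Finset.range (r + 1), (t.choose j : K) • N ^ j =
        ∑ j ∈ Finset.range (t + r + 1), (t.choose j : K) • N ^ j := by
      refine Finset.sum_subset (fun j hj => ?_) fun j _ hj => ?_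
      · rw [Finset.mem_range] at hj ⊢; omega
      · rw [Finset.mem_range] at hj
        rw [hz j (by omega), smul_zero]
    rw [ha, hb]
  unfold pv
  rw [Polynomial.eval_finsetSum, h1, h2, Matrix.sum_mulVec, Finset.sum_apply]
  refine Finset.sum_congr rfl fun j _ => ?_
  rw [Polynomial.eval_mul, Polynomial.eval_C, bp_eval, Matrix.smul_mulVec, Pi.smul_apply,
    smul_eq_mul, mul_comm]

theorem fixes_pow {K : Type*} [Field K] {c : Cf n d → K} {A : Matrix (Fin n) (Fin n) K}
    (h : Fixes A c) (t : ℕ) : Fixes (A ^ t) c := by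
  induction t with
  | zero => intro x; simp
  | succ t ih =>
    intro x
    rw [pow_succ', ← Matrix.mulVec_mulVec, h, ih, Matrix.mulVec_mulVec]

theorem eq_zero_of_mulVec {K : Type*} [Field K] (B : Matrix (Fin n) (Fin n) K)
    (h : ∀ x, B *ᵥ x = 0) : B = 0 := by
  ext i j
  have := congrFun (h (Pi.single j 1)) i
  simpa using this

/-- For a nilpotent matrix `N ≠ 0` there are `r ≥ 1` and `x` with `N^(r+1) = 0`, `N^r x ≠ 0`. -/
theorem exists_last {K : Type*} [Field K] (N : Matrix (Fin n) (Fin n) K) (hN : IsNilpotent N)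
    (h0 : N ≠ 0) : ∃ r, 1 ≤ r ∧ N ^ (r + 1) = 0 ∧ ∃ x, N ^ r *ᵥ x ≠ 0 := by
  classical
  obtain ⟨k, hk⟩ := hN
  have hex : ∃ k, N ^ k = 0 := ⟨k, hk⟩
  have h1 : N ^ (Nat.find hex) = 0 := Nat.find_spec hex
  have h2 : 2 ≤ Nat.find hex := by
    by_contra hlt
    have h3 : Nat.find hex ≤ 1 := by omega
    exact h0 (by simpa using pow_eq_zero_of_le h3 h1)
  refine ⟨Nat.find hex - 1, by omega, ?_, ?_⟩
  · rw [Nat.sub_add_cancel (by omega)]; exact h1
  · by_contra hx
    push Not at hx
    exact Nat.find_min hex (by omega) (eq_zero_of_mulVec _ hx)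

/-- A unipotent automorphism is trivial. -/
theorem unip {K : Type*} [Field K] [CharZero K] (c : Cf n d → K) (hd : 2 ≤ d) (hc : Nondeg c)
    (N : Matrix (Fin n) (Fin n) K) (hN : IsNilpotent N) (hf : Fixes (N + 1) c) : N = 0 := by
  by_contra h0
  obtain ⟨r, hr, hz, x, hx⟩ := exists_last N hN h0
  have h1 := lead_zero c hd r hr (pv N r x) (pv N r (ev c x)) (fun l => pv_deg N r x l)
    (fun l => pv_deg N r _ l) (Set.range (Nat.cast : ℕ → K))
    (Set.infinite_range_of_injective Nat.cast_injective) (by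
      rintro _ ⟨t, rfl⟩
      have e1 : (fun l => (pv N r x l).eval (t : K)) = (N + 1) ^ t *ᵥ x :=
        funext fun l => pv_eval N r hz x l t
      have e2 : (fun l => (pv N r (ev c x) l).eval (t : K)) = (N + 1) ^ t *ᵥ ev c x :=
        funext fun l => pv_eval N r hz _ l t
      rw [e1, e2]
      exact fixes_pow hf t x)
  have h2 := hc _ h1
  apply hx
  funext l
  have h3 := congrFun h2 l
  simp only [pv_coeff, Pi.zero_apply] at h3
  have h4 : (r.factorial : K)⁻¹ ≠ 0 := inv_ne_zero (by exact_mod_cast r.factorial_ne_zero)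
  exact (mul_eq_zero.1 h3).resolve_left h4

/-- Eigenvalues are the roots of the characteristic polynomial. -/
theorem root_iff {K : Type*} [Field K] (A : Matrix (Fin n) (Fin n) K) (t : K) :
    A.charpoly.IsRoot t ↔ ∃ v, v ≠ 0 ∧ A *ᵥ v = t • v := by
  rw [Polynomial.IsRoot.def, Matrix.eval_charpoly, ← Matrix.exists_mulVec_eq_zero_iff]
  constructor
  · rintro ⟨v, hv, h⟩
    refine ⟨v, hv, ?_⟩
    rw [Matrix.sub_mulVec, sub_eq_zero] at h
    rw [← h]
    simp [Matrix.scalar_apply]
  · rintro ⟨v, hv, h⟩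
    refine ⟨v, hv, ?_⟩
    rw [Matrix.sub_mulVec, sub_eq_zero, h]
    simp [Matrix.scalar_apply]

end general

theorem t_ORD : S_ORD.{u} := by
  intro K _ _ _ n d hd c hc A A' hAA hA
  classical
  -- eigenvalues
  have hstep : ∀ t : K, A.charpoly.IsRoot t → A.charpoly.IsRoot (t ^ d) := by
    intro t ht
    obtain ⟨v, hv, h⟩ := (root_iff A t).1 ht
    refine (root_iff A _).2 ⟨ev c v, fun h0 => hv (hc v h0), ?_⟩
    rw [← hA v, h, ev_smul]
  have hne : ∀ t : K, A.charpoly.IsRoot t → t ≠ 0 := by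
    rintro t ht rfl
    obtain ⟨v, hv, h⟩ := (root_iff A 0).1 ht
    apply hv
    have hA' : A' * A = 1 := mul_eq_one_comm.1 hAA
    calc v = (A' * A) *ᵥ v := by rw [hA', Matrix.one_mulVec]
      _ = A' *ᵥ (A *ᵥ v) := by rw [Matrix.mulVec_mulVec]
      _ = 0 := by rw [h, zero_smul, Matrix.mulVec_zero]
  have hit : ∀ (t : K), A.charpoly.IsRoot t → ∀ i : ℕ, A.charpoly.IsRoot (t ^ d ^ i) := by
    intro t ht i
    induction i with
    | zero => simpa using ht
    | succ i ih =>
      have := hstep _ ih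
      rwa [← pow_mul, ← pow_succ] at this
  have hunit : ∀ t : K, A.charpoly.IsRoot t → ∃ M : ℕ, 0 < M ∧ t ^ M = 1 := by
    intro t ht
    have hfin : (Set.range fun i : ℕ => t ^ d ^ i).Finite := by
      refine (A.charpoly.roots.toFinset.finite_toSet).subset ?_
      rintro _ ⟨i, rfl⟩
      simp only [Multiset.mem_toFinset, Finset.mem_coe]
      rw [Polynomial.mem_roots (Matrix.charpoly_monic A).ne_zero]
      exact hit t ht i
    have hni : ¬ Function.Injective fun i : ℕ => t ^ d ^ i := fun hinj =>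
      Set.infinite_range_of_injective hinj hfin
    rw [Function.not_injective_iff] at hni
    obtain ⟨a, b, hab, hne'⟩ := hni
    have key : ∀ a b : ℕ, a < b → t ^ d ^ a = t ^ d ^ b → ∃ M : ℕ, 0 < M ∧ t ^ M = 1 := by
      intro a b hlt he
      have h1 : d ^ a < d ^ b := Nat.pow_lt_pow_right (by omega) hlt
      refine ⟨d ^ b - d ^ a, by omega, ?_⟩
      have h2 : t ^ (d ^ b - d ^ a) * t ^ d ^ a = t ^ d ^ a := by
        rw [← pow_add, Nat.sub_add_cancel h1.le, he]
      have h3 : t ^ d ^ a ≠ 0 := pow_ne_zero _ (hne t ht)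
      exact mul_right_cancel₀ h3 (by rw [h2, one_mul])
    rcases lt_or_gt_of_ne hne' with h | h
    · exact key a b h hab
    · exact key b a h hab.symm
  choose! M hM0 hM1 using hunit
  -- a common exponent
  obtain ⟨L, hL0, hL⟩ : ∃ L : ℕ, 0 < L ∧ ∀ t ∈ A.charpoly.roots, t ^ L = 1 := by
    refine ⟨∏ t ∈ A.charpoly.roots.toFinset, M t, ?_, ?_⟩
    · refine Finset.prod_pos fun t ht => hM0 t ?_
      exact Polynomial.isRoot_of_mem_roots (Multiset.mem_toFinset.1 ht)
    · intro t ht
      obtain ⟨q, hq⟩ := Finset.dvd_prod_of_mem M (Multiset.mem_toFinset.2 ht)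
      rw [hq, pow_mul, hM1 t (Polynomial.isRoot_of_mem_roots ht), one_pow]
  refine ⟨L, hL0, ?_⟩
  have hsplit : A.charpoly = (A.charpoly.roots.map fun a => Polynomial.X - Polynomial.C a).prod :=
    ((IsAlgClosed.splits A.charpoly).eq_prod_roots_of_monic (Matrix.charpoly_monic A))
  have hdvd : ∀ s : Multiset K, (∀ t ∈ s, t ^ L = 1) →
      (s.map fun a => Polynomial.X - Polynomial.C a).prod ∣
        ((Polynomial.X : Polynomial K) ^ L - 1) ^ (Multiset.card s) := by
    intro s
    induction s using Multiset.induction_on with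
    | empty => intro _; simp
    | cons a s ih =>
      intro hs
      rw [Multiset.map_cons, Multiset.prod_cons, Multiset.card_cons, pow_succ']
      refine mul_dvd_mul ?_ (ih fun t ht => hs t (Multiset.mem_cons_of_mem ht))
      rw [Polynomial.dvd_iff_isRoot]
      simp [hs a (Multiset.mem_cons_self a s)]
  have hnil : (A ^ L - 1) ^ (Multiset.card A.charpoly.roots) = 0 := by
    obtain ⟨q, hq⟩ := hdvd A.charpoly.roots hL
    rw [← hsplit] at hq
    have h1 := congrArg (fun p => Polynomial.aeval A p) hq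
    simp only [map_mul, Matrix.aeval_self_charpoly, zero_mul, map_pow, map_sub,
      Polynomial.aeval_X, map_one] at h1
    exact h1
  have h2 : A ^ L - 1 = 0 := by
    refine unip c hd hc (A ^ L - 1) ⟨_, hnil⟩ ?_
    rw [sub_add_cancel]
    exact fixes_pow hA L
  exact sub_eq_zero.1 h2

end Pool.Agent.D0H50.SM
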